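import Pool.Agent.W780.BB.Stm

set_option autoImplicit false

/-!
BB-OPEN: the set of pairs with a given itinerary is open.
-/

namespace Pool.Agent.W762.BB

open Complex Set Pool.Agent.W780.PG Pool.Agent.W780.BB

open scoped Real ComplexConjugate

variable {n : ℕ}

theorem sf_cont (p : Fin (n + 3) → ℂ) (i : Fin (n + 3)) : Continuous (sf p i) := by
  unfold sf lft
  fun_prop

theorem rf_cont (p : Fin (n + 3) → ℂ) (i : Fin (n + 3)) : Continuous (rf p i) := by
  have h : rf p i = fun z => p i + dir (2 * tau p i) * conj (z - p i) := by
    funext z; rfl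
  rw [h]
  exact continuous_const.add (continuous_const.mul
    (Complex.continuous_conj.comp (continuous_id.sub continuous_const)))

theorem reg_open (p : Fin (n + 3) → ℂ) : IsOpen (reg p) := by
  have h : reg p = ⋂ i, {z | 0 < sf p i z} := by
    ext z
    simp only [mem_iInter, mem_setOf_eq, reg, sf]
  rw [h]
  exact isOpen_iInter_of_finite fun i => isOpen_lt continuous_const (sf_cont p i)

theorem open_it : S_Open := by
  intro n p _ w
  induction w with
  | nil =>
    change IsOpen {x : ℂ × ℂ | x.2 ∈ reg p}
    exact (reg_open p).preimage continuous_snd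
  | cons i w ih =>
    set O : Set (ℂ × ℂ) := {x | 0 < sf p i x.1 ∧ sf p i x.2 < 0} with hO
    have hOo : IsOpen O :=
      (isOpen_lt continuous_const ((sf_cont p i).comp continuous_fst)).inter
        (isOpen_lt ((sf_cont p i).comp continuous_snd) continuous_const)
    set f : ℂ × ℂ → ℂ × ℂ := fun x => (cr p i x.1 x.2, rf p i x.2) with hf
    set T : Set (ℂ × ℂ) := {y | (∀ j, j ≠ i → 0 < sf p j y.1) ∧ Ch p w y.1 y.2} with hT
    have hTo : IsOpen T := by
      have h1 : T = (⋂ j, {y : ℂ × ℂ | j ≠ i → 0 < sf p j y.1}) ∩ {x : ℂ × ℂ | Ch p w x.1 x.2} := by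
        ext y
        simp only [hT, mem_inter_iff, mem_iInter, mem_setOf_eq]
      rw [h1]
      refine (isOpen_iInter_of_finite fun j => ?_).inter ih
      by_cases hj : j = i
      · have : {y : ℂ × ℂ | j ≠ i → 0 < sf p j y.1} = univ := by
          ext y; simp [hj]
        rw [this]
        exact isOpen_univ
      · have : {y : ℂ × ℂ | j ≠ i → 0 < sf p j y.1} = {y : ℂ × ℂ | 0 < sf p j y.1} := by
          ext y; simp [hj]
        rw [this]
        exact isOpen_lt continuous_const ((sf_cont p j).comp continuous_fst)
    have hfc : ContinuousOn f O := by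
      have h1 : ContinuousOn (fun x : ℂ × ℂ => sf p i x.1 / (sf p i x.1 - sf p i x.2)) O := by
        apply ContinuousOn.div
        · exact ((sf_cont p i).comp continuous_fst).continuousOn
        · exact (((sf_cont p i).comp continuous_fst).sub
            ((sf_cont p i).comp continuous_snd)).continuousOn
        · intro x hx
          have := hx.1
          have := hx.2
          linarith
      have h2 : ContinuousOn (fun x : ℂ × ℂ => cr p i x.1 x.2) O := by
        unfold cr
        exact continuous_fst.continuousOn.add
          (h1.smul (continuous_snd.sub continuous_fst).continuousOn)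
      exact h2.prodMk ((rf_cont p i).comp continuous_snd).continuousOn
    have h3 : {x : ℂ × ℂ | Ch p (i :: w) x.1 x.2} = O ∩ f ⁻¹' T := by
      ext x
      simp only [mem_inter_iff, mem_preimage, mem_setOf_eq, hO, hf, hT, Ch]
      tauto
    rw [h3]
    exact hfc.isOpen_inter_preimage hOo hTo

end Pool.Agent.W762.BB
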